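import Pool.Agent.H318Z.Silver.Defs

/-!
# The countable support product of Silver forcing: fusion and supports
-/

set_option autoImplicit false
set_option linter.all false

namespace H318Z.Silver

open Pool.Agent.Helper292.ForceCH Cardinal

open scoped Classical

/-- A condition of the countable support product of Silver forcing. -/
@[ext] structure Cond (I : Type) where
  val : I → ℕ → Option Bool
  supp : {a | ∃ n, val a n ≠ none}.Countable
  free : ∀ a, {n | val a n = none}.Infinite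

variable {I : Type}

instance : Preorder (Cond I) where
  le q p := ∀ a n b, p.val a n = some b → q.val a n = some b
  le_refl _ _ _ _ h := h
  le_trans _ _ _ h h' a n b h'' := h a n b (h' a n b h'')

theorem le_def {q p : Cond I} : q ≤ p ↔ ∀ a n b, p.val a n = some b → q.val a n = some b :=
  Iff.rfl

theorem none_of_le {q p : Cond I} (h : q ≤ p) {a : I} {n : ℕ} (hq : q.val a n = none) :
    p.val a n = none := by
  rcases hp : p.val a n with _ | b
  · rfl
  · rw [h a n b hp] at hq; cases hq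

/-- the trivial condition -/
def top (I : Type) : Cond I where
  val _ _ := none
  supp := by simp
  free _ := by simpa using Set.infinite_univ

instance : Nonempty (Cond I) := ⟨top I⟩

/-- change of finitely many values -/
noncomputable def chg (p : Cond I) (E : Finset (I × ℕ)) (σ : I × ℕ → Option Bool) : Cond I where
  val a n := if (a, n) ∈ E then σ (a, n) else p.val a n
  supp := by
    refine (p.supp.union (E.image Prod.fst).countable_toSet).mono ?_
    rintro a ⟨n, hn⟩
    by_cases h : (a, n) ∈ E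
    · exact Or.inr (by simpa using ⟨n, h⟩)
    · rw [if_neg h] at hn
      exact Or.inl ⟨n, hn⟩
  free a := by
    refine ((p.free a).diff (E.image Prod.snd).finite_toSet).mono ?_
    rintro n ⟨h1, h2⟩
    have h : (a, n) ∉ E := fun h => h2 (by simpa using ⟨a, h⟩)
    show (if (a, n) ∈ E then σ (a, n) else p.val a n) = none
    rw [if_neg h]; exact h1

theorem chg_val (p : Cond I) (E : Finset (I × ℕ)) (σ : I × ℕ → Option Bool) (a : I) (n : ℕ) :
    (chg p E σ).val a n = if (a, n) ∈ E then σ (a, n) else p.val a n := rfl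

/-- fill the points of `E` following `T` -/
noncomputable def put (p : Cond I) (E T : Finset (I × ℕ)) : Cond I :=
  chg p E fun x => some (decide (x ∈ T))

/-- `p` is undefined on `E` -/
def Free (p : Cond I) (E : Finset (I × ℕ)) : Prop := ∀ x ∈ E, p.val x.1 x.2 = none

theorem put_le {p : Cond I} {E : Finset (I × ℕ)} (h : Free p E) (T : Finset (I × ℕ)) :
    put p E T ≤ p := by
  intro a n b hb
  have : (a, n) ∉ E := fun h' => by rw [h _ h'] at hb; cases hb
  simp only [put, chg_val, if_neg this, hb]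

theorem put_mono {q p : Cond I} (h : q ≤ p) (E T : Finset (I × ℕ)) : put q E T ≤ put p E T := by
  intro a n b hb
  simp only [put, chg_val] at hb ⊢
  split_ifs at hb ⊢ with h1
  · exact hb
  · exact h a n b hb

theorem exists_put (r : Cond I) (E : Finset (I × ℕ)) : ∃ T ⊆ E, put r E T ≤ r := by
  refine ⟨E.filter fun x => r.val x.1 x.2 = some true, Finset.filter_subset _ _, ?_⟩
  intro a n b hb
  simp only [put, chg_val]
  split_ifs with h1
  · cases b <;> simp [h1, hb]
  · exact hb

theorem step1 {p r : Cond I} {E T : Finset (I × ℕ)} (h : Free p E) (hr : r ≤ put p E T) :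
    ∃ q ≤ p, Free q E ∧ put q E T ≤ r := by
  refine ⟨chg r E fun _ => none, ?_, ?_, ?_⟩
  · intro a n b hb
    have h1 : (a, n) ∉ E := fun h' => by rw [h _ h'] at hb; cases hb
    simp only [chg_val, if_neg h1]
    exact hr a n b (by simp only [put, chg_val, if_neg h1, hb])
  · intro x hx
    simp only [chg_val, if_pos hx]
  · intro a n b hb
    simp only [put, chg_val]
    split_ifs with h1
    · have := hr a n (decide ((a, n) ∈ T)) (by simp only [put, chg_val, if_pos h1])
      rw [← this, hb]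
    · exact hb

theorem step2 {Y : Type*} (D : Y → Set (Cond I)) (hD : ∀ y, Down (D y)) (p : Cond I)
    (hd : ∀ r ≤ p, ∃ r' ≤ r, ∃ y, r' ∈ D y) (E : Finset (I × ℕ)) (h : Free p E)
    (L : Finset (Finset (I × ℕ))) :
    ∃ q ≤ p, Free q E ∧ ∃ S : Finset Y, S.card ≤ L.card ∧ ∀ T ∈ L, ∃ y ∈ S, put q E T ∈ D y := by
  induction L using Finset.induction_on with
  | empty => exact ⟨p, le_rfl, h, ∅, le_rfl, by simp⟩
  | insert T L hT ih =>
    obtain ⟨q, hq, h1, S, h2, h3⟩ := ih
    obtain ⟨r, hr, y, hy⟩ := hd (put q E T) ((put_le h1 T).trans hq)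
    obtain ⟨q', hq', h4, h5⟩ := step1 h1 hr
    refine ⟨q', hq'.trans hq, h4, insert y S, ?_, ?_⟩
    · rw [Finset.card_insert_of_notMem hT]
      exact (Finset.card_insert_le _ _).trans (Nat.succ_le_succ h2)
    · intro T' hT'
      rcases Finset.mem_insert.1 hT' with rfl | hT'
      · exact ⟨y, Finset.mem_insert_self _ _, hD y _ hy _ h5⟩
      · obtain ⟨y', hy', h6⟩ := h3 T' hT'
        exact ⟨y', Finset.mem_insert_of_mem hy', hD y' _ h6 _ (put_mono hq' E T')⟩

/-- recursion with access to one earlier value -/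
noncomputable def seq {α : Type*} (a0 : α) (F : ℕ → α → α → α) : ℕ → α
  | 0 => a0
  | n + 1 => F n (seq a0 F n) (seq a0 F n.unpair.1)
decreasing_by
  · omega
  · exact Nat.lt_succ_of_le (Nat.unpair_left_le n)

theorem exists_enum (p : Cond I) (a0 : I) : ∃ e : ℕ → I, ∀ a n, p.val a n ≠ none → ∃ k, e k = a := by
  obtain ⟨e, he⟩ := (p.supp.insert a0).exists_eq_range (Set.insert_nonempty _ _)
  refine ⟨e, fun a n h => ?_⟩
  have : a ∈ Set.range e := he ▸ Or.inr ⟨n, h⟩
  exact this

/-- the limit of a decreasing sequence of conditions -/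
theorem exists_limit (s : ℕ → Cond I) (hs : ∀ n, s (n + 1) ≤ s n)
    (hf : ∀ a N, ∃ m, N ≤ m ∧ ∀ n, (s n).val a m = none) : ∃ q : Cond I, ∀ n, q ≤ s n := by
  have hm : Antitone s := antitone_nat_of_succ_le hs
  let v : I → ℕ → Option Bool := fun a m =>
    if ∃ n, (s n).val a m = some true then some true
    else if ∃ n, (s n).val a m = some false then some false else none
  have hv : ∀ a m, (∀ n, (s n).val a m = none) → v a m = none := by
    intro a m h
    simp [v, h]
  refine ⟨⟨v, ?_, ?_⟩, ?_⟩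
  · refine (Set.countable_iUnion fun n => (s n).supp).mono ?_
    rintro a ⟨m, hm⟩
    by_contra hc
    refine hm (hv a m fun n => ?_)
    by_contra h
    exact hc (Set.mem_iUnion.2 ⟨n, m, h⟩)
  · intro a
    refine Set.infinite_of_forall_exists_gt fun N => ?_
    obtain ⟨m, h1, h2⟩ := hf a (N + 1)
    exact ⟨m, hv a m h2, h1⟩
  · intro n a m b hb
    show v a m = some b
    cases b
    · have h1 : ¬ ∃ n, (s n).val a m = some true := by
        rintro ⟨k, hk⟩
        have h2 := hm (le_max_left n k) a m _ hb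
        have h3 := hm (le_max_right n k) a m _ hk
        rw [h2] at h3; cases h3
      simp only [v, if_neg h1]
      rw [if_pos ⟨n, hb⟩]
    · simp only [v]
      rw [if_pos ⟨n, hb⟩]

/-- The Sacks property. -/
theorem sacks [Nonempty I] {Y : Type*} (D : ℕ → Y → Set (Cond I)) (hD : ∀ n y, Down (D n y))
    (p : Cond I) (hd : ∀ n, ∀ r ≤ p, ∃ r' ≤ r, ∃ y, r' ∈ D n y) :
    ∃ q ≤ p, ∃ S : ℕ → Finset Y, (∀ n, (S n).card ≤ 2 ^ n) ∧
      ∀ n, ∀ r ≤ q, ∃ r' ≤ r, ∃ y ∈ S n, r' ∈ D n y := by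
  obtain ⟨a0⟩ := ‹Nonempty I›
  choose e he using fun p : Cond I => exists_enum p a0
  let St := {s : Cond I × Finset (I × ℕ) // s.1 ≤ p ∧ Free s.1 s.2}
  have hstep : ∀ (n : ℕ) (s : St) (a : I), ∃ s' : St, s'.1.1 ≤ s.1.1 ∧ s.1.2 ⊆ s'.1.2 ∧
      s'.1.2.card ≤ s.1.2.card + 1 ∧ (∃ m, n ≤ m ∧ (a, m) ∈ s'.1.2) ∧
      ∃ S : Finset Y, S.card ≤ 2 ^ s.1.2.card ∧ ∀ T ⊆ s.1.2, ∃ y ∈ S, put s'.1.1 s.1.2 T ∈ D n y := by
    rintro n ⟨⟨p', E⟩, h1, h2⟩ a
    obtain ⟨q, hq, h3, S, h4, h5⟩ := step2 (D n) (hD n) p' (fun r hr => hd n r (hr.trans h1)) E h2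
      E.powerset
    obtain ⟨m, hm, hm'⟩ := (q.free a).exists_gt n
    refine ⟨⟨⟨q, insert (a, m) E⟩, hq.trans h1, ?_⟩, hq, Finset.subset_insert _ _,
      Finset.card_insert_le _ _, ⟨m, hm'.le, Finset.mem_insert_self _ _⟩, S, ?_, ?_⟩
    · intro x hx
      rcases Finset.mem_insert.1 hx with rfl | hx
      · exact hm
      · exact h3 x hx
    · rwa [Finset.card_powerset] at h4
    · intro T hT
      exact h5 T (Finset.mem_powerset.2 hT)
  choose F hF1 hF2 hF3 hF4 S hS1 hS2 using hstep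
  let s0 : St := ⟨⟨p, ∅⟩, le_rfl, fun x hx => by simp at hx⟩
  let s : ℕ → St := seq s0 fun n t t' => F n t (e t'.1.1 n.unpair.2.unpair.1)
  have hs0 : s 0 = s0 := by simp only [s]; rw [seq]
  have hs : ∀ n, s (n + 1) = F n (s n) (e (s n.unpair.1).1.1 n.unpair.2.unpair.1) := by
    intro n
    simp only [s]; rw [seq]
  have h1 : ∀ n, (s (n + 1)).1.1 ≤ (s n).1.1 := fun n => by rw [hs]; exact hF1 _ _ _
  have h2 : Monotone fun n => (s n).1.2 :=
    monotone_nat_of_le_succ fun n => by rw [hs]; exact hF2 _ _ _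
  have h1' : Antitone fun n => (s n).1.1 := antitone_nat_of_succ_le h1
  have h3 : ∀ n, (s n).1.2.card ≤ n := by
    intro n
    induction n with
    | zero => rw [hs0]; simp [s0]
    | succ n ih => rw [hs]; exact (hF3 _ _ _).trans (Nat.succ_le_succ ih)
  have h4 : ∀ k n x, x ∈ (s k).1.2 → (s n).1.1.val x.1 x.2 = none := by
    intro k n x hx
    exact none_of_le (h1' (le_max_right k n)) ((s (max k n)).2.2 x (h2 (le_max_left k n) hx))
  obtain ⟨q, hq⟩ := exists_limit (fun n => (s n).1.1) h1 (by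
    intro a N
    by_cases h : ∃ i m, (s i).1.1.val a m ≠ none
    · obtain ⟨i, m, hm⟩ := h
      obtain ⟨k, hk⟩ := he _ a m hm
      obtain ⟨m', hm1, hm2⟩ := hF4 (Nat.pair i (Nat.pair k N)) (s (Nat.pair i (Nat.pair k N)))
        (e (s (Nat.pair i (Nat.pair k N)).unpair.1).1.1 (Nat.pair i (Nat.pair k N)).unpair.2.unpair.1)
      rw [← hs] at hm2
      simp only [Nat.unpair_pair] at hm2
      rw [hk] at hm2
      refine ⟨m', ((Nat.right_le_pair k N).trans (Nat.right_le_pair i _)).trans hm1, fun n => ?_⟩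
      exact h4 _ n _ hm2
    · push Not at h
      exact ⟨N, le_rfl, fun n => h n N⟩)
  refine ⟨q, (hq 0).trans (s 0).2.1,
    fun n => S n (s n) (e (s n.unpair.1).1.1 n.unpair.2.unpair.1), fun n => ?_, ?_⟩
  · exact (hS1 _ _ _).trans (Nat.pow_le_pow_right (by norm_num) (h3 n))
  · intro n r hr
    obtain ⟨T, hT, hT'⟩ := exists_put r (s n).1.2
    obtain ⟨y, hy, hy'⟩ := hS2 n (s n) (e (s n.unpair.1).1.1 n.unpair.2.unpair.1) T hT
    rw [← hs] at hy'
    exact ⟨_, hT', y, hy, hD n y _ hy' _ (put_mono (hr.trans (hq (n + 1))) _ _)⟩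

/-- closure under countably-ary operations -/
theorem exists_closed {L : Type} (hL : #L ≤ 𝔠) (F : (ℕ → I) → L → I) (a0 : I) :
    ∃ J : Set I, #J ≤ 𝔠 ∧ a0 ∈ J ∧ ∀ c : ℕ → I, (∀ k, c k ∈ J) → ∀ l, F c l ∈ J := by
  let β : Option L → Type := fun o => {_n : ℕ // o ≠ none}
  let ev : WType β → I := fun w => WType.rec (motive := fun _ => I)
    (fun o _ ih => match o, ih with
      | none, _ => a0
      | some l, ih => F (fun k => ih ⟨k, by simp⟩) l) w
  refine ⟨Set.range ev, mk_range_le.trans ?_, ⟨⟨none, fun i => (i.2 rfl).elim⟩, rfl⟩, ?_⟩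
  · refine WType.cardinalMk_le_of_le ?_
    refine (sum_le_sum _ (fun _ => 𝔠) fun o => ?_).trans ?_
    · have h1 : #(β o) ≤ ℵ₀ := mk_le_aleph0
      calc (𝔠 : Cardinal.{0}) ^ #(β o) ≤ 𝔠 ^ ℵ₀ := power_le_power_left continuum_ne_zero h1
        _ = 𝔠 := continuum_power_aleph0
    · rw [sum_const']
      have h2 : #(Option L) ≤ 𝔠 := by
        rw [mk_option]
        exact add_le_of_le aleph0_le_continuum hL (one_le_aleph0.trans aleph0_le_continuum)
      exact (mul_le_mul_left h2 _).trans continuum_mul_self.le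
  · intro c hc l
    choose w hw using hc
    refine ⟨⟨some l, fun i => w i.1⟩, ?_⟩
    show F (fun k => ev (w k)) l = F c l
    rw [funext hw]

/-- A column which is irrelevant to continuum many sets of conditions. -/
theorem exists_column (hI : 𝔠 < #I) (W : Set ℕ → Set (Cond I)) :
    ∃ α : I, ∀ A, ∀ w ∈ W A, ∃ w' ∈ W A, (∀ n, w'.val α n = none) ∧
      ∀ β, (∃ n, w'.val β n ≠ none) → (w.val β = w'.val β ∨ ∀ n, w.val β n = none) := by
  have hne : Nonempty I := mk_ne_zero_iff.1 (ne_of_gt (lt_of_le_of_lt zero_le hI))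
  obtain ⟨a0⟩ := hne
  choose e he using fun p : Cond I => exists_enum p a0
  have h0 : ∀ (c : ℕ → I) (A : Set ℕ) (s : ℕ → ℕ → Option Bool), ∃ w' : Cond I,
      (∃ w ∈ W A, ∀ k, w.val (c k) = s k) → w' ∈ W A ∧ ∀ k, w'.val (c k) = s k := by
    intro c A s
    by_cases h : ∃ w ∈ W A, ∀ k, w.val (c k) = s k
    · obtain ⟨w, h1, h2⟩ := h
      exact ⟨w, fun _ => ⟨h1, h2⟩⟩
    · exact ⟨top I, fun h' => (h h').elim⟩
  choose g hg using h0
  obtain ⟨J, hJ, ha0, hcl⟩ := exists_closed (L := Set ℕ × (ℕ → ℕ → Option Bool) × ℕ) (by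
    simp only [mk_prod, lift_id, mk_set, mk_nat, two_power_aleph0, mk_pi, prod_const, mk_option,
      mk_bool, lift_aleph0, lift_uzero]
    have h3 : ((2 : Cardinal.{0}) + 1) ^ ℵ₀ ≤ 𝔠 := by
      calc ((2 : Cardinal.{0}) + 1) ^ ℵ₀ ≤ 𝔠 ^ ℵ₀ := by
            refine power_le_power_right ?_
            have : ((2 : Cardinal.{0}) + 1) = (3 : ℕ) := by norm_num
            rw [this]
            exact (nat_lt_aleph0 3).le.trans aleph0_le_continuum
        _ = 𝔠 := continuum_power_aleph0
    have h4 : (((2 : Cardinal.{0}) + 1) ^ ℵ₀) ^ ℵ₀ ≤ 𝔠 :=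
      (power_le_power_right h3).trans continuum_power_aleph0.le
    exact mul_le_of_le aleph0_le_continuum le_rfl
      (mul_le_of_le aleph0_le_continuum h4 aleph0_le_continuum))
    (fun c l => e (g c l.1 l.2.1) l.2.2) a0
  have hα : ∃ α, α ∉ J := by
    by_contra hc
    push Not at hc
    have : J = Set.univ := Set.eq_univ_of_forall hc
    rw [this, mk_univ] at hJ
    exact absurd hI (not_lt.2 hJ)
  obtain ⟨α, hα⟩ := hα
  refine ⟨α, fun A w hw => ?_⟩
  let c : ℕ → I := fun k => if e w k ∈ J then e w k else a0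
  have hc : ∀ k, c k ∈ J := fun k => by
    simp only [c]; split_ifs with h
    · exact h
    · exact ha0
  obtain ⟨h1, h2⟩ := hg c A (fun k => w.val (c k)) ⟨w, hw, fun _ => rfl⟩
  have h3 : ∀ β n, (g c A fun k => w.val (c k)).val β n ≠ none → β ∈ J := by
    intro β n hn
    obtain ⟨k, hk⟩ := he _ β n hn
    exact hk ▸ hcl c hc (A, fun k => w.val (c k), k)
  refine ⟨_, h1, fun n => ?_, ?_⟩
  · by_contra h
    exact hα (h3 α n h)
  · rintro β ⟨n, hn⟩
    by_cases h : ∀ n, w.val β n = none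
    · exact Or.inr h
    · push Not at h
      obtain ⟨m, hm⟩ := h
      obtain ⟨k, hk⟩ := he w β m hm
      have hβ := h3 β n hn
      have : c k = β := by simp only [c, hk, if_pos hβ]
      exact Or.inl (by rw [← this, h2 k])

end H318Z.Silver
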