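import Mathlib

/-!
# The combinatorial core of the argument of Chodounský and Guzmán
-/

set_option autoImplicit false
set_option linter.all false

namespace H318Z.Silver

open scoped Classical

/-- the moduli -/
def kk (n : ℕ) : ℕ := 4 ^ n * (n + 1) + 1

theorem kk_pos (n : ℕ) : 0 < kk n := Nat.succ_pos _

/-- the number of the points below `m` with value `true` -/
noncomputable def cnt (v : ℕ → Option Bool) (m : ℕ) : ℕ := Nat.count (fun j => v j = some true) m

theorem exists_shift (n : ℕ) (T y : Finset ℕ) (hT : T.card ≤ 2 ^ n) (hy : y.card ≤ 2 ^ n) (C : ℕ) :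
    ∃ c < kk n, ∀ i ∈ T, ∀ j ≤ n, (i + (C + c + j)) % kk n ∉ y := by
  by_contra hc
  push Not at hc
  choose! i hi j hj hy' using hc
  have h := Finset.card_le_card_of_injOn (s := Finset.range (kk n))
    (t := T ×ˢ (Finset.range (n + 1)) ×ˢ y)
    (fun c => (i c, j c, (i c + (C + c + j c)) % kk n)) (by
      intro c hc
      have hc' : c < kk n := by simpa using hc
      simp only [Finset.coe_product, Set.mem_prod, Finset.mem_coe, Finset.mem_range]
      exact ⟨hi c hc', Nat.lt_succ_of_le (hj c hc'), hy' c hc'⟩) (by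
      intro c hc c' hc' h
      have h1 : c < kk n := by simpa using hc
      have h2 : c' < kk n := by simpa using hc'
      simp only [Prod.mk.injEq] at h
      obtain ⟨e1, e2, e3⟩ := h
      rw [e1, e2] at e3
      have e4 : (i c' + C + j c') + c ≡ (i c' + C + j c') + c' [MOD kk n] := by
        have a1 : (i c' + C + j c') + c = i c' + (C + c + j c') := by ring
        have a2 : (i c' + C + j c') + c' = i c' + (C + c' + j c') := by ring
        rw [a1, a2]; exact e3
      exact Nat.ModEq.eq_of_lt_of_lt (Nat.ModEq.add_left_cancel' _ e4) h1 h2)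
  simp only [Finset.card_range, Finset.card_product] at h
  have h3 : T.card * ((n + 1) * y.card) ≤ 2 ^ n * ((n + 1) * 2 ^ n) :=
    Nat.mul_le_mul hT (Nat.mul_le_mul_left _ hy)
  have h4 : 2 ^ n * ((n + 1) * 2 ^ n) = 4 ^ n * (n + 1) := by
    have : (4 : ℕ) ^ n = 2 ^ n * 2 ^ n := by rw [← mul_pow]; norm_num
    rw [this]; ring
  have h5 : kk n = 4 ^ n * (n + 1) + 1 := rfl
  omega

theorem count_all (ρ : ℕ → Prop) [DecidablePred ρ] (a c : ℕ) (h : ∀ s, a ≤ s → s < a + c → ρ s) :
    Nat.count ρ (a + c) = Nat.count ρ a + c := by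
  induction c with
  | zero => rfl
  | succ c ih =>
    rw [← add_assoc, Nat.count_succ, if_pos (h _ (by omega) (by omega)),
      ih fun s h1 h2 => h s h1 (by omega), add_assoc]

theorem count_none (ρ : ℕ → Prop) [DecidablePred ρ] (a e : ℕ) (hae : a ≤ e) (h : ∀ s, a ≤ s → s < e → ¬ ρ s) :
    Nat.count ρ e = Nat.count ρ a := by
  induction e, hae using Nat.le_induction with
  | base => rfl
  | succ e he ih =>
    rw [Nat.count_succ, if_neg (h _ he (by omega)), ih fun s h1 h2 => h s h1 (by omega), add_zero]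

theorem core (v : ℕ → Option Bool) (hv : {n | v n = none}.Infinite) (T y : ℕ → Finset ℕ)
    (hT : ∀ n, (T n).card ≤ 2 ^ n) (hy : ∀ n, (y n).card ≤ 2 ^ n) (f g : ℕ → ℕ) :
    ∃ B : ℕ → Set ℕ, (∀ m, m ∈ B 0 ∨ m ∈ B 1) ∧ ∀ ε < 2, ∃ v' : ℕ → Option Bool,
      (∀ n c, v n = some c → v' n = some c) ∧ {n | v' n = none}.Infinite ∧
      ∃ N, ∀ m, N ≤ m → m ∈ B ε → (∀ n, g n ≤ m → cnt v m % kk n ∈ T n) →
        ∃ n, f n ≤ m ∧ ∀ u : ℕ → Option Bool, (∀ n c, v' n = some c → u n = some c) →
          cnt u m % kk n ∉ y n := by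
  let D : ℕ → Prop := fun j => v j = none
  have hD : (setOf D).Infinite := hv
  obtain ⟨b, hb0, hb⟩ : ∃ b : ℕ → ℕ, b 0 = 0 ∧
      ∀ t, b (t + 1) = b t + kk (t + 1) + 1 + f (t + 1) + g (t + 1) :=
    ⟨fun t => Nat.rec 0 (fun t x => x + kk (t + 1) + 1 + f (t + 1) + g (t + 1)) t, rfl,
      fun _ => rfl⟩
  have hmono : StrictMono b := strictMono_nat_of_lt_succ fun t => by rw [hb]; omega
  have hex : ∀ s, ∃ t, s < b (t + 1) := fun s => ⟨s, hmono.le_apply (x := s + 1)⟩
  obtain ⟨blk, hblk1, hblk2⟩ : ∃ blk : ℕ → ℕ, (∀ s, s < b (blk s + 1)) ∧ ∀ s, b (blk s) ≤ s := by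
    refine ⟨fun s => Nat.find (hex s), fun s => Nat.find_spec (hex s), fun s => ?_⟩
    show b (Nat.find (hex s)) ≤ s
    rcases h : Nat.find (hex s) with _ | t
    · rw [hb0]; exact Nat.zero_le _
    · have := Nat.find_min (hex s) (m := t) (by omega)
      omega
  have hblk : ∀ s t, b t ≤ s → s < b (t + 1) → blk s = t := by
    intro s t h1 h2
    have a1 : blk s < t + 1 := hmono.lt_iff_lt.1 ((hblk2 s).trans_lt h2)
    have a2 : t < blk s + 1 := hmono.lt_iff_lt.1 (h1.trans_lt (hblk1 s))
    omega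
  refine ⟨fun ε => {m | blk (Nat.count D m) % 2 = ε}, fun m => ?_, fun ε hε => ?_⟩
  · show _ % 2 = 0 ∨ _ % 2 = 1
    omega
  choose ch hch1 hch2 using fun n C => exists_shift n (T n) (y n) (hT n) (hy n) C
  obtain ⟨C, hC0, hC'⟩ : ∃ C : ℕ → ℕ, C 0 = 0 ∧
      ∀ t, C (t + 1) = C t + if t % 2 = ε then 0 else ch (t + 1) (C t) :=
    ⟨fun t => Nat.rec 0 (fun t x => x + if t % 2 = ε then 0 else ch (t + 1) x) t, rfl,
      fun _ => rfl⟩
  obtain ⟨c, hcc⟩ : ∃ c : ℕ → ℕ, ∀ t, c t = if t % 2 = ε then 0 else ch (t + 1) (C t) :=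
    ⟨_, fun _ => rfl⟩
  have hC : ∀ t, C (t + 1) = C t + c t := fun t => by rw [hC', hcc]
  have hc : ∀ t, c t < kk (t + 1) := by
    intro t
    rw [hcc]
    split_ifs
    · exact kk_pos _
    · exact hch1 _ _
  obtain ⟨π, hπ⟩ : ∃ π : ℕ → Option Bool, ∀ s, π s =
      @ite _ (s = b (blk s) ∧ blk s % 2 ≠ ε) (Classical.dec _) (none : Option Bool)
        (@ite _ (b (blk s) < s ∧ s ≤ b (blk s) + c (blk s)) (Classical.dec _) (some true)
          (some false)) := ⟨_, fun _ => rfl⟩
  let v' : ℕ → Option Bool := fun j => if v j = none then π (Nat.count D j) else v j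
  have hv' : ∀ n c, v n = some c → v' n = some c := by
    intro n c h
    simp [v', h]
  have hnth : ∀ s, v' (Nat.nth D s) = π s := by
    intro s
    have h1 : v (Nat.nth D s) = none := Nat.nth_mem_of_infinite hD s
    simp only [v', if_pos h1, Nat.count_nth_of_infinite hD]
  refine ⟨v', hv', ?_, Nat.nth D (b 1), ?_⟩
  · refine Set.infinite_of_forall_exists_gt fun N => ?_
    refine ⟨Nat.nth D (b (2 * N + ε + 1)), ?_, ?_⟩
    · show v' _ = none
      rw [hnth]
      have h1 : blk (b (2 * N + ε + 1)) = 2 * N + ε + 1 := hblk _ _ le_rfl (hmono (by omega))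
      rw [hπ, h1, if_pos ⟨rfl, by omega⟩]
    · have h1 : b (2 * N + ε + 1) ≤ Nat.nth D (b (2 * N + ε + 1)) :=
        Nat.le_nth fun hf => absurd hf hD
      have h2 : 2 * N + ε + 1 ≤ b (2 * N + ε + 1) := hmono.le_apply
      omega
  intro m hm hB hA
  have hB' : blk (Nat.count D m) % 2 = ε := hB
  have hs1 : b 1 ≤ Nat.count D m := by
    have := Nat.count_monotone D hm
    rwa [Nat.count_nth_of_infinite hD] at this
  have hsm : Nat.count D m ≤ m := Nat.count_le _
  obtain ⟨t, ht⟩ : ∃ t, blk (Nat.count D m) = t + 1 := by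
    rcases h : blk (Nat.count D m) with _ | t
    · have := hblk1 (Nat.count D m)
      rw [h, zero_add] at this
      omega
    · exact ⟨t, rfl⟩
  have h1 := hblk1 (Nat.count D m)
  have h2 := hblk2 (Nat.count D m)
  rw [ht] at h1 h2 hB'
  have h3 := hb t
  refine ⟨t + 1, by omega, fun u hu => ?_⟩
  let ρ : ℕ → Prop := fun s => u (Nat.nth D s) = some true
  have e1 : ∀ m', cnt u m' = cnt v m' + Nat.count ρ (Nat.count D m') := by
    intro m'
    induction m' with
    | zero => simp [cnt]
    | succ m' ih =>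
      simp only [cnt] at ih ⊢
      rw [Nat.count_succ, Nat.count_succ, ih, Nat.count_succ D]
      by_cases h : D m'
      · have h' : v m' = none := h
        rw [if_pos h, Nat.count_succ ρ]
        have h4 : ρ (Nat.count D m') ↔ u m' = some true := by
          simp only [ρ, Nat.nth_count h]
        by_cases h5 : u m' = some true
        · rw [if_pos h5, if_pos (h4.2 h5), if_neg (by rw [h']; simp)]; ring
        · rw [if_neg h5, if_neg (fun h6 => h5 (h4.1 h6)), if_neg (by rw [h']; simp)]; ring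
      · rw [if_neg h, add_zero]
        obtain ⟨c', hc'⟩ := Option.ne_none_iff_exists'.1 h
        have h5 := hu _ _ (hv' _ _ hc')
        rw [h5, hc']; ring
  have e2 : ∀ s, π s = some true → ρ s := fun s h => hu _ _ (by rw [hnth, h])
  have e3 : ∀ s, π s = some false → ¬ ρ s := by
    intro s h h'
    have := hu _ _ (by rw [hnth, h] : v' (Nat.nth D s) = some false)
    simp only [ρ] at h'
    rw [this] at h'; cases h'
  have e4 : ∀ t, ∃ j ≤ t, Nat.count ρ (b t) = C t + j := by
    intro t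
    induction t with
    | zero => exact ⟨0, le_rfl, by rw [hb0, hC0]; rfl⟩
    | succ t ih =>
      obtain ⟨j, hj, ih⟩ := ih
      have a0 := hb t
      have a1 := hc t
      have a2 : Nat.count ρ (b (t + 1)) = Nat.count ρ (b t + 1 + c t) := by
        refine count_none ρ _ _ (by omega) fun s h1 h2 => e3 s ?_
        have a3 : blk s = t := hblk s t (by omega) h2
        rw [hπ, a3, if_neg (by omega), if_neg (by omega)]
      have a4 : Nat.count ρ (b t + 1 + c t) = Nat.count ρ (b t + 1) + c t := by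
        refine count_all ρ _ _ fun s h1 h2 => e2 s ?_
        have a3 : blk s = t := hblk s t (by omega) (by omega)
        rw [hπ, a3, if_neg (by omega), if_pos (by omega)]
      rw [a2, a4, Nat.count_succ, ih, hC]
      split_ifs
      · exact ⟨j + 1, by omega, by ring⟩
      · exact ⟨j, by omega, by ring⟩
  have e5 : Nat.count ρ (Nat.count D m) = Nat.count ρ (b (t + 1)) := by
    refine count_none ρ _ _ h2 fun s h4 h5 => e3 s ?_
    have a3 : blk s = t + 1 := hblk s (t + 1) h4 (by omega)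
    have a4 : c (t + 1) = 0 := by rw [hcc, if_pos hB']
    rw [hπ, a3, if_neg (by omega), if_neg (by omega)]
  obtain ⟨j, hj, e6⟩ := e4 (t + 1)
  have e7 : c t = ch (t + 1) (C t) := by
    rw [hcc, if_neg (by omega)]
  have e8 := hch2 (t + 1) (C t) _ (hA (t + 1) (by omega)) j hj
  rw [e1, e5, e6, hC, e7]
  rwa [Nat.mod_add_mod] at e8

end H318Z.Silver
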