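import Pool.Agent.Helper292.ForceCH

/-!
# No P-points and dominating number `ℵ₁`, as statements and as sentences of the forcing language

The forcing language is the one of `Pool.Agent.Helper292.ForceCH`: a sentence is the set of the
conditions which force it, a name of a subset of a ground model set `X` is a map `X → Set P`.
A name of a family of subsets of `ℕ` attaches a set of conditions to each name of a subset of `ℕ`.
-/

set_option autoImplicit false

namespace H318Z.Silver

open Pool.Agent.Helper292.ForceCH

universe u

/-- The family `U` of subsets of `ℕ` is a nonprincipal ultrafilter: it is closed under supersets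
of intersections of two members, it contains one of each two sets which cover `ℕ`, and all its
members are infinite. -/
def IsUltra (U : Set (Set ℕ)) : Prop :=
  (∀ x y z : Set ℕ, x ∈ U ∧ y ∈ U ∧ (∀ n, n ∈ x ∧ n ∈ y → n ∈ z) → z ∈ U) ∧
    (∀ x y : Set ℕ, (∀ n, n ∈ x ∨ n ∈ y) → x ∈ U ∨ y ∈ U) ∧
      ∀ x : Set ℕ, x ∈ U → ∀ m, ∃ n, m ≤ n ∧ n ∈ x

/-- There is no P-point: no nonprincipal ultrafilter on `ℕ` contains, for each sequence of its
members, a set almost contained in every term of the sequence. -/
def NoPPoint : Prop :=
  ¬ ∃ U : Set (Set ℕ), IsUltra U ∧ ∀ X : ℕ → Set ℕ, (∀ k, X k ∈ U) →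
    ∃ z : Set ℕ, z ∈ U ∧ ∀ k, ∃ m, ∀ n, m ≤ n ∧ n ∈ z → n ∈ X k

/-- The dominating number is `ℵ₁`: some family of functions `ℕ → ℕ` indexed by `ω₁` dominates
every function. -/
def DomOne : Prop :=
  ∃ E : Om → ℕ → ℕ, ∀ f : ℕ → ℕ, ∃ a : Om, ∀ n i j, f n = i ∧ E a n = j → i ≤ j

section

variable {P : Type u} [Preorder P]

/-- `φ or ψ` is `not (not φ and not ψ)`. -/
def fdis (φ ψ : Set P) : Set P := fnot (fand (fnot φ) (fnot ψ))

/-- The subsets of `ℕ` named by `x` and `y` are equal. -/
def Same (x y : ℕ → Set P) : Set P := fall fun n => fiff (meets (x n)) (meets (y n))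

/-- The subset of `ℕ` named by `x` belongs to the family named by `U`. -/
def Mem (x : ℕ → Set P) (U : (ℕ → Set P) → Set P) : Set P :=
  fex fun y : ℕ → Set P => fand (meets (U y)) (Same x y)

/-- The sentence `IsUltra U`. -/
def IsUltraName (U : (ℕ → Set P) → Set P) : Set P :=
  fand (fall fun x : ℕ → Set P => fall fun y : ℕ → Set P => fall fun z : ℕ → Set P =>
      fimp (fand (Mem x U) (fand (Mem y U)
        (fall fun n => fimp (fand (meets (x n)) (meets (y n))) (meets (z n))))) (Mem z U))
    (fand (fall fun x : ℕ → Set P => fall fun y : ℕ → Set P =>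
        fimp (fall fun n => fdis (meets (x n)) (meets (y n))) (fdis (Mem x U) (Mem y U)))
      (fall fun x : ℕ → Set P => fimp (Mem x U)
        (fall fun m => fex fun n => fand (fground (m ≤ n)) (meets (x n)))))

end

/-- The sentence `NoPPoint` of the forcing language. -/
def NoPPointHolds (P : Type u) [Preorder P] : Set P :=
  fnot (fex fun U : (ℕ → Set P) → Set P => fand (IsUltraName U)
    (fall fun X : ℕ → ℕ → Set P => fimp (fall fun k => Mem (X k) U)
      (fex fun z : ℕ → Set P => fand (Mem z U) (fall fun k => fex fun m => fall fun n =>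
        fimp (fand (fground (m ≤ n)) (meets (z n))) (meets (X k n))))))

/-- The sentence `DomOne` of the forcing language. -/
def DomOneHolds (P : Type u) [Preorder P] : Set P :=
  fex fun E : Om → ℕ → ℕ → Set P => fand (fall fun a => IsFun (E a))
    (fall fun f : ℕ → ℕ → Set P => fimp (IsFun f) (fex fun a : Om =>
      fall fun n => fall fun i => fall fun j =>
        fimp (fand (meets (f n i)) (meets (E a n j))) (fground (i ≤ j))))

end H318Z.Silver
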