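import Pool.Agent.Helper185.DelNoP

/-!
Triple limits give injectively enumerated `γ_p`-covers when there are no P-points.
-/

set_option autoImplicit false
set_option linter.all false

namespace H318Z.Silver

open Set Filter Pool.Agent.Helper185.Del

theorem exists_phi_psi (hno : ∀ p : Ultrafilter ℕ, ¬ IsPPoint p) {p : Ultrafilter ℕ}
    (hp : Nonprincipal p) : ∃ φ ψ : ℕ → ℕ, ∀ S : ℕ → ℕ → ℕ → Prop,
      (∀ᶠ n in atTop, ∀ᶠ a in atTop, ∀ᶠ b in atTop, S n a b) → {i | S (ψ (φ i)) (φ i) i} ∈ p := by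
  obtain ⟨φ, hφ, hφS⟩ := exists_phi hp (hno p)
  obtain ⟨ψ, hψ, hψS⟩ := exists_phi hφ (hno _)
  refine ⟨φ, ψ, fun S hS => ?_⟩
  obtain ⟨N, hN⟩ := eventually_atTop.1 hS
  have hG : {a | ∀ᶠ b in atTop, S (ψ a) a b} ∈ p.map φ := by
    have h1 := hψS {q | q.1 < N ∨ ∀ᶠ b in atTop, S q.1 q.2 b} (by
      intro n
      rcases Nat.lt_or_ge n N with h2 | h2
      · exact Eventually.of_forall (fun a => Or.inl h2)
      · filter_upwards [hN n h2] with a ha
        exact Or.inr ha)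
    have h3 : {c | N ≤ c} ∈ (p.map φ).map ψ :=
      hψ (by rw [Nat.cofinite_eq_atTop]; exact Ici_mem_atTop N)
    have h2 : {a | N ≤ ψ a} ∈ p.map φ := h3
    refine mem_of_superset (inter_mem h1 h2) (fun a ha => ?_)
    obtain ⟨ha1, ha2⟩ := ha
    rcases ha1 with h3 | h3
    · exact absurd h3 (not_lt.2 ha2)
    · exact h3
  have hG' : {i | ∀ᶠ b in atTop, S (ψ (φ i)) (φ i) b} ∈ p := hG
  have h4 := hφS {q | (¬ ∀ᶠ b in atTop, S (ψ q.1) q.1 b) ∨ S (ψ q.1) q.1 q.2} (by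
    intro a
    by_cases ha : ∀ᶠ b in atTop, S (ψ a) a b
    · filter_upwards [ha] with b hb
      exact Or.inr hb
    · exact Eventually.of_forall (fun b => Or.inl ha))
  refine mem_of_superset (inter_mem h4 hG') (fun i hi => ?_)
  rcases hi.1 with h5 | h5
  · exact absurd hi.2 h5
  · exact h5

variable {X : Type*}

/-- `L` is the limit of infinite subfamilies of `𝒰` -/
def Good (𝒰 : Set (Set X)) (L : Set X) : Prop :=
  ∃ R : ℕ → Set (Set X), (∀ i, R i ⊆ 𝒰 ∧ (R i).Infinite) ∧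
    ∀ x ∈ L, ∀ᶠ i in atTop, ∀ V ∈ R i, x ∈ V

theorem good_or_small {𝒰 : Set (Set X)} (V : ℕ → Set X) (hV : ∀ b, V b ∈ 𝒰) (L : Set X)
    (hL : ∀ x ∈ L, ∀ᶠ b in atTop, x ∈ V b) : Good 𝒰 L ∨ ∃ W ∈ 𝒰, L ⊆ W := by
  by_cases h : ∀ i, (V '' Ici i).Infinite
  · refine Or.inl ⟨fun i => V '' Ici i, fun i => ⟨?_, h i⟩, fun x hx => ?_⟩
    · rintro _ ⟨b, -, rfl⟩; exact hV b
    · obtain ⟨N, hN⟩ := eventually_atTop.1 (hL x hx)
      filter_upwards [eventually_ge_atTop N] with i hi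
      rintro _ ⟨b, hb, rfl⟩
      exact hN b (hi.trans hb)
  · push Not at h
    obtain ⟨i, hi⟩ := h
    by_contra hc
    push Not at hc
    have h1 : ∀ W ∈ V '' Ici i, ∀ᶠ b in atTop, V b ≠ W := by
      rintro _ ⟨b, -, rfl⟩
      obtain ⟨x, hx, hx'⟩ := not_subset.1 (hc.2 _ (hV b))
      filter_upwards [hL x hx] with b' hb' h
      exact hx' (h ▸ hb')
    obtain ⟨b, hb, hb'⟩ := (((eventually_all_finite hi).2 h1).and (eventually_ge_atTop i)).exists
    exact hb _ ⟨b, hb', rfl⟩ rfl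

theorem level {𝒰 : Set (Set X)} (hne : 𝒰.Nonempty) (G : Set X → Prop)
    (hG : ∀ L, Good 𝒰 L → G L) (L : ℕ → Set X) (hL : ∀ a, G (L a) ∨ ∃ W ∈ 𝒰, L a ⊆ W)
    (M : Set X) (hM : ∀ x ∈ M, ∀ᶠ a in atTop, x ∈ L a) :
    (∃ L' : ℕ → Set X, (∀ a, G (L' a)) ∧ ∀ x ∈ M, ∀ᶠ a in atTop, x ∈ L' a) ∨
      ∃ W ∈ 𝒰, M ⊆ W := by
  by_cases h : ∀ a, ∃ a', a ≤ a' ∧ G (L a')
  · choose s hs1 hs2 using h
    refine Or.inl ⟨fun a => L (s a), hs2, fun x hx => ?_⟩
    obtain ⟨N, hN⟩ := eventually_atTop.1 (hM x hx)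
    filter_upwards [eventually_ge_atTop N] with a ha
    exact hN _ (ha.trans (hs1 a))
  · push Not at h
    obtain ⟨N, hN⟩ := h
    obtain ⟨W0, hW0⟩ := hne
    have h1 : ∀ a, ∃ W ∈ 𝒰, N ≤ a → L a ⊆ W := by
      intro a
      by_cases ha : N ≤ a
      · obtain ⟨W, h1, h2⟩ := (hL a).resolve_left (hN a ha)
        exact ⟨W, h1, fun _ => h2⟩
      · exact ⟨W0, hW0, fun h => absurd h ha⟩
    choose W hW1 hW2 using h1
    rcases good_or_small W hW1 M (fun x hx => by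
      filter_upwards [hM x hx, eventually_ge_atTop N] with a h1 h2
      exact hW2 a h2 h1) with h2 | h2
    · exact Or.inl ⟨fun _ => M, fun _ => hG _ h2, fun x hx => Eventually.of_forall fun _ => hx⟩
    · exact Or.inr h2

theorem exists_injective {α : Type*} (R : ℕ → Set α) (hR : ∀ i, (R i).Infinite) :
    ∃ W : ℕ → α, Function.Injective W ∧ ∀ i, W i ∈ R i := by
  classical
  have h : ∀ i (s : Finset α), ∃ a ∈ R i, a ∉ s := fun i s => (hR i).exists_notMem_finset s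
  choose F hF1 hF2 using h
  let s : ℕ → Finset α := fun n => Nat.rec ∅ (fun n t => insert (F n t) t) n
  have hs : ∀ n, s (n + 1) = insert (F n (s n)) (s n) := fun _ => rfl
  have hm : Monotone s := monotone_nat_of_le_succ fun n => by
    rw [hs]; exact Finset.subset_insert _ _
  refine ⟨fun n => F n (s n), ?_, fun i => hF1 _ _⟩
  refine Function.Injective.of_lt_imp_ne fun a b hab h => hF2 b (s b) ?_
  have h1 : F a (s a) ∈ s (a + 1) := by rw [hs]; exact Finset.mem_insert_self _ _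
  have h2 : F a (s a) = F b (s b) := h
  exact h2 ▸ hm hab h1

theorem inj_of_tripleLim [TopologicalSpace X] (h : TripleLim X)
    (hno : ∀ p : Ultrafilter ℕ, ¬ IsPPoint p) {p : Ultrafilter ℕ} (hp : Nonprincipal p)
    (𝒰 : Set (Set X)) (h𝒰 : IsOmegaCover 𝒰) :
    ∃ U : ℕ → Set X, Function.Injective U ∧ (∀ n, U n ∈ 𝒰) ∧ ∀ x, {n | x ∈ U n} ∈ p := by
  obtain ⟨U, hU, hx⟩ := h 𝒰 h𝒰
  have hne : 𝒰.Nonempty := ⟨_, hU 0 0 0⟩
  have h2 := fun n => level hne (Good 𝒰) (fun _ h => h) (fun a => {x | ∀ᶠ b in atTop, x ∈ U n a b})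
    (fun a => good_or_small (U n a) (hU n a) _ fun x hx => hx)
    {x | ∀ᶠ a in atTop, ∀ᶠ b in atTop, x ∈ U n a b} fun x hx => hx
  rcases level hne (fun M => ∃ L' : ℕ → Set X, (∀ a, Good 𝒰 (L' a)) ∧
      ∀ x ∈ M, ∀ᶠ a in atTop, x ∈ L' a)
    (fun L hL => ⟨fun _ => L, fun _ => hL, fun x hx => Eventually.of_forall fun _ => hx⟩)
    _ h2 univ (fun x _ => hx x) with ⟨M, hM, hM'⟩ | ⟨W, hW, hW'⟩
  · choose L hL hL' using hM
    choose R hR hR' using hL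
    obtain ⟨φ, ψ, hS⟩ := exists_phi_psi hno hp
    obtain ⟨W, hW, hW'⟩ := exists_injective (fun i => R (ψ (φ i)) (φ i) i) fun i => (hR _ _ _).2
    refine ⟨W, hW, fun i => (hR _ _ _).1 (hW' i), fun x => ?_⟩
    refine mem_of_superset (hS (fun n a i => ∀ V ∈ R n a i, x ∈ V) ?_) fun i hi => hi _ (hW' i)
    filter_upwards [hM' x trivial] with n hn
    filter_upwards [hL' n x hn] with a ha
    exact hR' n a x ha
  · exact absurd (univ_subset_iff.1 hW' ▸ hW) h𝒰.2.2.1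

end H318Z.Silver
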