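import Pool.Agent.H318Z.Silver.Cond
import Pool.Agent.H318Z.Silver.Core

/-!
# There are no P-points in the side-by-side Silver model, and the dominating number is `ℵ₁`
-/

set_option autoImplicit false
set_option linter.all false

namespace H318Z.Silver

open Pool.Agent.Helper292.ForceCH Cardinal

open scoped Classical

universe u v

section general

variable {P : Type u} [Preorder P]

theorem fex_of_dense {ι : Sort v} {φ : ι → Set P} {p : P}
    (h : ∀ q ≤ p, ∃ r ≤ q, r ∈ fex φ) : p ∈ fex φ := by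
  refine mem_fex.2 fun q hq => ?_
  obtain ⟨r, hr, h1⟩ := h q hq
  obtain ⟨s, hs, h2⟩ := mem_fex.1 h1 r le_rfl
  exact ⟨s, hs.trans hr, h2⟩

theorem mem_fdis {φ ψ : Set P} {p : P} :
    p ∈ fdis φ ψ ↔ ∀ q ≤ p, ∃ r ≤ q, r ∈ φ ∨ r ∈ ψ := by
  constructor
  · intro h q hq
    by_contra hc
    push Not at hc
    exact h q hq ⟨fun r hr => (hc r hr).1, fun r hr => (hc r hr).2⟩
  · rintro h q hq ⟨h1, h2⟩
    obtain ⟨r, hr, h3 | h3⟩ := h q hq
    · exact h1 r hr h3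
    · exact h2 r hr h3

theorem meets_of_le {N : Set P} {p s : P} (hs : s ∈ N) (h : p ≤ s) : p ∈ meets N :=
  fun q hq => ⟨q, le_rfl, s, hs, hq.trans h⟩

/-- the properties of the membership sentences of a name of a P-point -/
structure UF (M : (ℕ → Set P) → Set P) (p0 : P) : Prop where
  down : ∀ x, Down (M x)
  reg : ∀ x q, (∀ r ≤ q, ∃ r' ≤ r, r' ∈ M x) → q ∈ M x
  inter : ∀ q ≤ p0, ∀ x y z, q ∈ M x → q ∈ M y →
    (∀ n, ∀ r ≤ q, r ∈ meets (x n) → r ∈ meets (y n) → ∃ r' ≤ r, r' ∈ meets (z n)) → q ∈ M z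
  ultra : ∀ q ≤ p0, ∀ x y : ℕ → Set P,
    (∀ n, ∀ r ≤ q, ∃ r' ≤ r, r' ∈ meets (x n) ∨ r' ∈ meets (y n)) → ∃ r ≤ q, r ∈ M x ∨ r ∈ M y
  inf : ∀ q ≤ p0, ∀ x, q ∈ M x → ∀ m, ∃ r ≤ q, ∃ n, m ≤ n ∧ r ∈ meets (x n)
  pp : ∀ q ≤ p0, ∀ X : ℕ → ℕ → Set P, (∀ k, q ∈ M (X k)) → ∃ r ≤ q, ∃ z, r ∈ M z ∧
    ∀ k, ∀ r' ≤ r, ∃ r'' ≤ r', ∃ m, ∀ n, m ≤ n → ∀ t ≤ r'', t ∈ meets (z n) →
      ∃ t' ≤ t, t' ∈ meets (X k n)

theorem uf_of_forced {U : (ℕ → Set P) → Set P} {p0 : P} (h1 : p0 ∈ IsUltraName U)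
    (h2 : p0 ∈ (fall fun X : ℕ → ℕ → Set P => fimp (fall fun k => Mem (X k) U)
      (fex fun z : ℕ → Set P => fand (Mem z U) (fall fun k => fex fun m => fall fun n =>
        fimp (fand (fground (m ≤ n)) (meets (z n))) (meets (X k n)))))) :
    UF (fun x => Mem x U) p0 := by
  obtain ⟨a1, a2, a3⟩ := h1
  refine ⟨fun x => down_fex _, fun x q h => fex_of_dense h, ?_, ?_, ?_, ?_⟩
  · intro q hq x y z hx hy h
    refine fex_of_dense fun r hr => ?_
    exact mem_fimp.1 (a1 x y z) r (hr.trans hq) ⟨down_fex _ _ hx _ hr, down_fex _ _ hy _ hr,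
      fun n => mem_fimp.2 fun t ht ht' => h n t (ht.trans hr) ht'.1 ht'.2⟩
  · intro q hq x y h
    obtain ⟨r, hr, h3⟩ := mem_fimp.1 (a2 x y) q hq fun n => mem_fdis.2 (h n)
    obtain ⟨s, hs, h4⟩ := mem_fdis.1 h3 r le_rfl
    exact ⟨s, hs.trans hr, h4⟩
  · intro q hq x hx m
    obtain ⟨r, hr, h3⟩ := mem_fimp.1 (a3 x) q hq hx
    obtain ⟨s, hs, n, h4, h5⟩ := mem_fex.1 (h3 m) r le_rfl
    exact ⟨s, hs.trans hr, n, h4, h5⟩
  · intro q hq X hX
    obtain ⟨r, hr, h3⟩ := mem_fimp.1 (h2 X) q hq hX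
    obtain ⟨s, hs, z, h4, h5⟩ := mem_fex.1 h3 r le_rfl
    refine ⟨s, hs.trans hr, z, h4, fun k r' hr' => ?_⟩
    obtain ⟨r'', hr'', m, h6⟩ := mem_fex.1 (h5 k) r' hr'
    exact ⟨r'', hr'', m, fun n hn t ht ht' => mem_fimp.1 (h6 n) t ht ⟨hn, ht'⟩⟩

theorem UF.union {M : (ℕ → Set P) → Set P} {p0 : P} (h : UF M p0) (Y : ℕ → ℕ → Set P) (k : ℕ) :
    ∀ q ≤ p0, q ∈ M (fun m => {t | ∃ i < k, t ∈ Y i m}) → ∃ r ≤ q, ∃ i < k, r ∈ M (Y i) := by
  induction k with
  | zero =>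
    intro q hq hM
    obtain ⟨r, -, n, -, h1⟩ := h.inf q hq _ hM 0
    obtain ⟨_, -, s, ⟨i, hi, -⟩, -⟩ := h1 r le_rfl
    omega
  | succ k ih =>
    intro q hq hM
    obtain ⟨r, hr, h1 | h1⟩ := h.ultra q hq (Y k) (fun m => fnot (meets (Y k m))) (by
      intro n r _
      by_cases h2 : ∃ r' ≤ r, r' ∈ meets (Y k n)
      · obtain ⟨r', h3, h4⟩ := h2
        exact ⟨r', h3, Or.inl h4⟩
      · push Not at h2
        exact ⟨r, le_rfl, Or.inr (meets_of_le (s := r) h2 le_rfl)⟩)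
    · exact ⟨r, hr, k, Nat.lt_succ_self k, h1⟩
    · obtain ⟨r', hr', i, hi, h2⟩ := ih r (hr.trans hq) (by
        refine h.inter r (hr.trans hq) _ _ _ (h.down _ _ hM _ hr) h1 ?_
        intro n t _ h3 h4
        obtain ⟨t1, ht1, s, ⟨i, hi, hs⟩, h5⟩ := h3 t le_rfl
        obtain ⟨t2, ht2, s', hs', h6⟩ := h4 t1 ht1
        rcases Nat.lt_succ_iff_lt_or_eq.1 hi with hi | rfl
        · exact ⟨t1, ht1, meets_of_le ⟨i, hi, hs⟩ h5⟩
        · exact absurd (meets_of_le hs (ht2.trans h5)) (hs' t2 h6))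
      exact ⟨r', hr'.trans hr, i, Nat.lt_succ_of_lt hi, h2⟩

/-- the canonical name of a ground model set -/
def chk (A : Set ℕ) : ℕ → Set P := fun m => {_p | m ∈ A}

theorem meets_chk {A : Set ℕ} {m : ℕ} {p : P} : p ∈ meets (chk A m) ↔ m ∈ A := by
  constructor
  · intro h
    obtain ⟨_, -, s, hs, -⟩ := h p le_rfl
    exact hs
  · intro h
    exact meets_of_le (s := p) h le_rfl

end general

variable {I : Type}

theorem UF.capture [Nonempty I] {M : (ℕ → Set (Cond I)) → Set (Cond I)} {p0 : Cond I}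
    (h : UF M p0) (Y : ℕ → ℕ → ℕ → Set (Cond I)) (k : ℕ → ℕ) (q : Cond I) (hq : q ≤ p0)
    (hY : ∀ n m, ∀ r ≤ q, ∃ r' ≤ r, ∃ i < k n, r' ∈ meets (Y n i m)) :
    ∃ q' ≤ q, ∃ T : ℕ → Finset ℕ, (∀ n, (T n).card ≤ 2 ^ n) ∧ ∃ g : ℕ → ℕ, ∃ z, q' ∈ M z ∧
      ∀ n m, g n ≤ m → ∀ t ≤ q', t ∈ meets (z m) → ∃ t' ≤ t, ∃ i ∈ T n, t' ∈ meets (Y n i m) := by
  obtain ⟨q1, hq1, T, hT, h1⟩ := sacks (fun n i => M (Y n i)) (fun n i => h.down _) q (by
    intro n r hr
    have h2 : ∃ r' ≤ r, r' ∈ M (fun m => {t | ∃ i < k n, t ∈ Y n i m}) := by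
      obtain ⟨r', h3, h4⟩ := h.ultra r (hr.trans hq) (fun m => {t | ∃ i < k n, t ∈ Y n i m})
        (fun m => {t | ∃ i < k n, t ∈ Y n i m}) (by
          intro m t ht
          obtain ⟨t1, ht1, i, hi, h5⟩ := hY n m t (ht.trans hr)
          obtain ⟨t2, ht2, s, hs, h6⟩ := h5 t1 le_rfl
          exact ⟨t2, ht2.trans ht1, Or.inl (meets_of_le ⟨i, hi, hs⟩ h6)⟩)
      exact ⟨r', h3, h4.elim id id⟩
    obtain ⟨r', h3, h4⟩ := h2
    obtain ⟨r'', h5, i, -, h6⟩ := h.union (Y n) (k n) r' (h3.trans (hr.trans hq)) h4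
    exact ⟨r'', h5.trans h3, i, h6⟩)
  obtain ⟨r, hr, z, hz, h2⟩ := h.pp q1 (hq1.trans hq)
    (fun n m => {t | ∃ i ∈ T n, t ∈ Y n i m}) (by
      intro n
      refine h.reg _ _ fun r hr => ?_
      obtain ⟨r', h3, i, hi, h4⟩ := h1 n r hr
      refine ⟨r', h3, h.inter r' (h3.trans (hr.trans (hq1.trans hq))) _ _ _ h4 h4 ?_⟩
      intro m t _ h5 _
      obtain ⟨t1, ht1, s, hs, h6⟩ := h5 t le_rfl
      exact ⟨t1, ht1, meets_of_le ⟨i, hi, hs⟩ h6⟩)
  obtain ⟨q', hq', S, -, h3⟩ := sacks (fun k m => {r'' | ∀ n, m ≤ n → ∀ t ≤ r'', t ∈ meets (z n) →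
      ∃ t' ≤ t, t' ∈ meets {t | ∃ i ∈ T k, t ∈ Y k i n}})
    (fun k m a ha b hb n hn t ht => ha n hn t (ht.trans hb)) r h2
  refine ⟨q', hq'.trans (hr.trans hq1), T, hT, fun n => (S n).sup id, z, h.down _ _ hz _ hq', ?_⟩
  intro n m hm t ht ht'
  obtain ⟨t1, ht1, m0, hm0, h4⟩ := h3 n t ht
  obtain ⟨t2, ht2, h5⟩ := h4 m ((Finset.le_sup (f := id) hm0).trans hm) t1 le_rfl
    (down_meets _ _ ht' _ ht1)
  obtain ⟨t3, ht3, s, ⟨i, hi, hs⟩, h6⟩ := h5 t2 le_rfl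
  exact ⟨t3, ht3.trans (ht2.trans ht1), i, hi, meets_of_le hs h6⟩

theorem cnt_congr {u v : ℕ → Option Bool} {m : ℕ} (h : ∀ j < m, u j = v j) :
    cnt u m = cnt v m := by
  induction m with
  | zero => rfl
  | succ m ih =>
    simp only [cnt] at ih ⊢
    rw [Nat.count_succ, Nat.count_succ, ih fun j hj => h j (by omega), h m (by omega)]

/-- No condition forces that there is a P-point. -/
theorem not_uf (hI : 𝔠 < #I) (M : (ℕ → Set (Cond I)) → Set (Cond I)) (p0 : Cond I) :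
    ¬ UF M p0 := by
  intro h
  haveI : Nonempty I := mk_ne_zero_iff.1 (ne_of_gt (lt_of_le_of_lt zero_le hI))
  obtain ⟨α, hα⟩ := exists_column hI fun A => M (chk A)
  obtain ⟨p1, hp1, y, hy, f, z1, hz1, h1⟩ := h.capture
    (fun n i m => {p | (∀ j < m, p.val α j ≠ none) ∧ cnt (p.val α) m % kk n = i}) kk p0 le_rfl (by
      intro n m r _
      obtain ⟨T, -, hT⟩ := exists_put r ((Finset.range m).image fun j => (α, j))
      refine ⟨_, hT, _, Nat.mod_lt _ (kk_pos n), meets_of_le ⟨fun j hj => ?_, rfl⟩ le_rfl⟩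
      simp only [put, chg_val]
      rw [if_pos (Finset.mem_image.2 ⟨j, Finset.mem_range.2 hj, rfl⟩)]
      simp)
  obtain ⟨p2, hp2, T, hT, g, z2, hz2, h2⟩ := h.capture
    (fun n i => chk {m | cnt (p1.val α) m % kk n = i}) kk p1 hp1
    (fun n m r _ => ⟨r, le_rfl, _, Nat.mod_lt _ (kk_pos n), meets_chk.2 rfl⟩)
  obtain ⟨B, hB, h3⟩ := core (p1.val α) (p1.free α) T y hT hy f g
  let A : Set ℕ := {m | ∀ n, g n ≤ m → cnt (p1.val α) m % kk n ∈ T n}
  have hA : p2 ∈ M (chk A) := by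
    refine h.inter p2 (hp2.trans hp1) _ _ _ hz2 hz2 fun m t ht h4 _ => ⟨t, le_rfl, ?_⟩
    refine meets_chk.2 fun n hn => ?_
    obtain ⟨t', -, i, hi, h5⟩ := h2 n m hn t ht h4
    have h6 : cnt (p1.val α) m % kk n = i := meets_chk.1 h5
    rwa [h6]
  obtain ⟨p3, hp3, ε, hε, h4⟩ : ∃ p3 ≤ p2, ∃ ε < 2, p3 ∈ M (chk (B ε)) := by
    obtain ⟨r, hr, h4 | h4⟩ := h.ultra p2 (hp2.trans hp1) (chk (B 0)) (chk (B 1))
      fun n r _ => ⟨r, le_rfl, (hB n).imp meets_chk.2 meets_chk.2⟩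
    · exact ⟨r, hr, 0, by omega, h4⟩
    · exact ⟨r, hr, 1, by omega, h4⟩
  have h5 : p3 ∈ M (chk (A ∩ B ε)) :=
    h.inter p3 (hp3.trans (hp2.trans hp1)) _ _ _ (h.down _ _ hA _ hp3) h4
      fun m t _ a1 a2 => ⟨t, le_rfl, meets_chk.2 ⟨meets_chk.1 a1, meets_chk.1 a2⟩⟩
  obtain ⟨w, hw, hw1, hw2⟩ := hα _ p3 h5
  obtain ⟨v', hv1, hv2, N, h6⟩ := h3 ε hε
  let p4 : Cond I :=
    { val := fun β => if β = α then v' else if ∃ n, w.val β n ≠ none then w.val β else p1.val β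
      supp := by
        refine ((w.supp.union p1.supp).insert α).mono ?_
        rintro β ⟨n, hn⟩
        by_cases a1 : β = α
        · exact Or.inl a1
        · rw [if_neg a1] at hn
          by_cases a2 : ∃ n, w.val β n ≠ none
          · exact Or.inr (Or.inl a2)
          · rw [if_neg a2] at hn
            exact Or.inr (Or.inr ⟨n, hn⟩)
      free := by
        intro β
        by_cases a1 : β = α
        · simp only [if_pos a1]; exact hv2
        · simp only [if_neg a1]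
          split_ifs
          · exact w.free β
          · exact p1.free β }
  have hp4 : ∀ β, p4.val β =
      if β = α then v' else if ∃ n, w.val β n ≠ none then w.val β else p1.val β := fun _ => rfl
  have h41 : p4 ≤ p1 := by
    intro β n c hc
    rw [hp4]
    split_ifs with a1 a2
    · subst a1; exact hv1 n c hc
    · have a3 := (hp3.trans hp2) β n c hc
      rcases hw2 β a2 with a4 | a4
      · rw [← a4]; exact a3
      · rw [a4] at a3; cases a3
    · exact hc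
  have h4w : p4 ≤ w := by
    intro β n c hc
    rw [hp4]
    have a1 : β ≠ α := by
      rintro rfl
      rw [hw1] at hc; cases hc
    rw [if_neg a1, if_pos ⟨n, by rw [hc]; simp⟩]
    exact hc
  have h7 : p4 ∈ M (fun m => {t | m ∈ A ∩ B ε ∧ t ∈ z1 m}) := by
    refine h.inter p4 (h41.trans hp1) _ _ _ (h.down _ _ hw _ h4w) (h.down _ _ hz1 _ h41) ?_
    intro m t _ a1 a2
    obtain ⟨t1, ht1, s, hs, a3⟩ := a2 t le_rfl
    exact ⟨t1, ht1, meets_of_le ⟨meets_chk.1 a1, hs⟩ a3⟩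
  obtain ⟨r, hr, m, hm, h8⟩ := h.inf p4 (h41.trans hp1) _ h7 N
  obtain ⟨r', hr', s, ⟨⟨a1, a2⟩, hs⟩, a3⟩ := h8 r le_rfl
  obtain ⟨n, hn, h9⟩ := h6 m hm a2 a1
  obtain ⟨t, ht, i, hi, h10⟩ := h1 n m hn r' (hr'.trans (hr.trans h41)) (meets_of_le hs a3)
  obtain ⟨t', ht', s', ⟨b1, b2⟩, b3⟩ := h10 t le_rfl
  refine h9 (t'.val α) (fun j c hc => ?_) ?_
  · exact (ht'.trans (ht.trans (hr'.trans hr))) α j c (by rw [hp4, if_pos rfl]; exact hc)
  · have b4 : cnt (t'.val α) m = cnt (s'.val α) m := by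
      refine cnt_congr fun j hj => ?_
      obtain ⟨c, hc⟩ := Option.ne_none_iff_exists'.1 (b1 j hj)
      rw [hc]; exact b3 α j c hc
    rw [b4, b2]; exact hi

theorem noPPointHolds (hI : 𝔠 < #I) (p : Cond I) : p ∈ NoPPointHolds (Cond I) := by
  intro q _ hq
  obtain ⟨r, -, U, h1, h2⟩ := mem_fex.1 hq q le_rfl
  exact not_uf hI _ r (uf_of_forced h1 h2)

theorem isFun_unique {P : Type u} [Preorder P] {X Y : Type} {R : X → Y → Set P} {p q : P}
    (h : p ∈ IsFun R) (hq : q ≤ p) {x : X} {y y' : Y} (h1 : q ∈ meets (R x y))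
    (h2 : q ∈ meets (R x y')) : y = y' := by
  obtain ⟨_, -, h3⟩ := mem_fimp.1 (h.2 x y y') q hq ⟨h1, h2⟩
  exact h3

theorem omegaOnePreserved [Nonempty I] (p : Cond I) : p ∈ OmegaOnePreserved (Cond I) := by
  intro q _ hq
  obtain ⟨r, -, R, h1, h2⟩ := mem_fex.1 hq q le_rfl
  obtain ⟨q', hq', S, -, h3⟩ := sacks (fun n y => meets (R n y)) (fun _ _ => down_meets _) r
    fun n => mem_fex.1 (h1.1 n)
  have h4 : ∃ a : Om, ∀ n, a ∉ S n := by
    by_contra hc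
    push Not at hc
    have h5 : (Set.univ : Set Om).Countable :=
      (Set.countable_iUnion fun n => (S n).countable_toSet).mono fun a _ =>
        Set.mem_iUnion.2 (hc a)
    rw [Set.countable_univ_iff, ← mk_le_aleph0_iff] at h5
    have h6 : #Om = ℵ₁ := by simp
    rw [h6] at h5
    exact absurd h5 (not_le.2 aleph0_lt_aleph_one)
  obtain ⟨a, ha⟩ := h4
  obtain ⟨t, ht, n, h5⟩ := mem_fex.1 (h2 a) q' hq'
  obtain ⟨t', ht', y, hy, h6⟩ := h3 n t ht
  exact ha n (isFun_unique h1 (ht'.trans (ht.trans hq')) (down_meets _ _ h5 _ ht') h6 ▸ hy)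

/-- fill the first points of countably many columns -/
noncomputable def fill (r : Cond I) (c : ℕ → I) (σ : I → Bool) : Cond I where
  val β n := if β ∈ Set.range c ∧ n = 0 then some (σ β) else r.val β n
  supp := by
    refine (r.supp.union (Set.countable_range c)).mono ?_
    rintro β ⟨n, hn⟩
    by_cases h : β ∈ Set.range c ∧ n = 0
    · exact Or.inr h.1
    · rw [if_neg h] at hn
      exact Or.inl ⟨n, hn⟩
  free β := by
    refine ((r.free β).diff (Set.finite_singleton 0)).mono ?_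
    rintro n ⟨h1, h2⟩
    show (if β ∈ Set.range c ∧ n = 0 then some (σ β) else r.val β n) = none
    rw [if_neg fun h => h2 h.2]; exact h1

theorem exists_fill (r : Cond I) (c : ℕ → I) (hc : Function.Injective c) (b : ℕ → Bool)
    (hb : ∀ i x, r.val (c i) 0 = some x → b i = x) :
    ∃ r' ≤ r, ∀ i, r'.val (c i) 0 = some (b i) := by
  refine ⟨fill r c (Function.extend c b fun _ => false), ?_, fun i => ?_⟩
  · intro β n x hx
    show (if β ∈ Set.range c ∧ n = 0 then _ else r.val β n) = _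
    split_ifs with h
    · obtain ⟨⟨i, rfl⟩, rfl⟩ := h
      rw [hc.extend_apply, hb i x hx]
    · exact hx
  · show (if c i ∈ Set.range c ∧ 0 = 0 then _ else r.val (c i) 0) = _
    rw [if_pos ⟨⟨i, rfl⟩, rfl⟩, hc.extend_apply]

theorem exists_code : ∃ e : (ℕ → Bool) → (ℕ → ℕ), Function.Surjective e := by
  have h : #(ℕ → ℕ) ≤ #(ℕ → Bool) := by simp
  obtain ⟨j⟩ := h
  exact ⟨Function.invFun j, Function.invFun_surjective j.injective⟩

theorem domOneHolds (ι : Om × ℕ → I) (hι : Function.Injective ι) (p : Cond I) :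
    p ∈ DomOneHolds (Cond I) := by
  haveI : Nonempty I := ⟨ι (Classical.arbitrary _)⟩
  obtain ⟨e, he⟩ := exists_code
  let E : Om → ℕ → ℕ → Set (Cond I) := fun a n j =>
    {p | ∃ b : ℕ → Bool, (∀ i, p.val (ι (a, i)) 0 = some (b i)) ∧ e b n = j}
  have hinj : ∀ a : Om, Function.Injective fun i : ℕ => ι (a, i) := fun a i j h =>
    (Prod.mk.inj (hι h)).2
  have hE : ∀ a n j (t : Cond I) (b : ℕ → Bool), t ∈ meets (E a n j) →
      (∀ i, t.val (ι (a, i)) 0 = some (b i)) → e b n = j := by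
    intro a n j t b h1 h2
    obtain ⟨t', ht', s, ⟨b', h3, h4⟩, h5⟩ := h1 t le_rfl
    have : b = b' := funext fun i => by
      have a1 := ht' _ _ _ (h2 i)
      rw [h5 _ _ _ (h3 i)] at a1
      exact (Option.some.inj a1).symm
    rw [this, h4]
  have hfill : ∀ (a : Om) (r : Cond I), ∃ r' ≤ r, ∃ b : ℕ → Bool,
      ∀ i, r'.val (ι (a, i)) 0 = some (b i) := by
    intro a r
    obtain ⟨r', h1, h2⟩ := exists_fill r _ (hinj a) (fun i => (r.val (ι (a, i)) 0).getD false)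
      (fun i x hx => by simp only [hx, Option.getD_some])
    exact ⟨r', h1, _, h2⟩
  refine mem_fex.2 fun q _ => ⟨q, le_rfl, E, fun a => ⟨fun n => ?_, fun n j j' => ?_⟩, ?_⟩
  · refine mem_fex.2 fun r _ => ?_
    obtain ⟨r', h1, b, h2⟩ := hfill a r
    exact ⟨r', h1, e b n, meets_of_le ⟨b, h2, rfl⟩ le_rfl⟩
  · refine fimp_of fun t _ ht => ?_
    obtain ⟨r', h1, b, h2⟩ := hfill a t
    exact (hE a n j r' b (down_meets _ _ ht.1 _ h1) h2).symm.trans
      (hE a n j' r' b (down_meets _ _ ht.2 _ h1) h2)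
  · intro f
    refine mem_fimp.2 fun r _ hf => ?_
    obtain ⟨q', hq', S, -, h3⟩ := sacks (fun n y => meets (f n y)) (fun _ _ => down_meets _) r
      fun n => mem_fex.1 (hf.1 n)
    obtain ⟨b, hb⟩ := he fun n => (S n).sup id
    have h4 : ∃ a : Om, ∀ i, q'.val (ι (a, i)) 0 = none := by
      by_contra hc
      push Not at hc
      choose k hk using hc
      have h5 : (Set.univ : Set Om).Countable := by
        refine Set.countable_of_injective_of_countable_image (f := fun a => ι (a, k a))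
          (fun a _ a' _ h => (Prod.mk.inj (hι h)).1) (q'.supp.mono ?_)
        rintro _ ⟨a, -, rfl⟩
        exact ⟨0, hk a⟩
      rw [Set.countable_univ_iff, ← mk_le_aleph0_iff] at h5
      have h6 : #Om = ℵ₁ := by simp
      rw [h6] at h5
      exact absurd h5 (not_le.2 aleph0_lt_aleph_one)
    obtain ⟨a, ha⟩ := h4
    obtain ⟨r', h5, h6⟩ := exists_fill q' _ (hinj a) b
      (fun i x hx => by rw [ha i] at hx; cases hx)
    refine ⟨r', h5.trans hq', mem_fex.2 fun t ht => ⟨t, le_rfl, a, fun n i j => ?_⟩⟩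
    refine fimp_of fun t' ht' h7 => ?_
    obtain ⟨t1, ht1, y, hy, h8⟩ := h3 n t' (ht'.trans (ht.trans h5))
    have h9 : i = y := isFun_unique hf (ht1.trans (ht'.trans (ht.trans (h5.trans hq'))))
      (down_meets _ _ h7.1 _ ht1) h8
    have h10 := hE a n j t' b h7.2 fun i => (ht'.trans ht) _ _ _ (h6 i)
    show i ≤ j
    rw [← h10, hb, h9]
    exact Finset.le_sup (f := id) hy

/-- A forcing notion which preserves `ω₁` and forces that there is no P-point and that the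
dominating number is `ℵ₁`. -/
theorem exists_forcing : ∃ (P : Type) (_ : Preorder P), Nonempty P ∧ ∀ p : P,
    p ∈ OmegaOnePreserved P ∧ p ∈ DomOneHolds P ∧ p ∈ NoPPointHolds P := by
  refine ⟨Cond (Set (Set ℕ) ⊕ (Om × ℕ)), inferInstance, inferInstance, fun p =>
    ⟨omegaOnePreserved p, domOneHolds Sum.inr Sum.inr_injective p, noPPointHolds ?_ p⟩⟩
  refine lt_of_lt_of_le ?_ (mk_le_of_injective Sum.inl_injective)
  rw [mk_set, mk_set, mk_nat, two_power_aleph0]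
  exact cantor _

end H318Z.Silver
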